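import Pool.Agent.Results.MP_17f4cb_nt.AllQuadraticTwistsVanish

/-!
# A cuspidal representation of `PGL₂` without any non-vanishing quadratic twist

The question (the weak Goldfeld conjecture for `PGL₂`) is whether for every irreducible cuspidal automorphic
representation `π'` of `PGL₂(𝔸)` a positive proportion of the quadratic twists has a non-vanishing central
value: `N_π'(x) ≥ c x` for some `c > 0` and all large `x`. The answer is negative: for the representation
`π'` generated by the Maass form of level `25` of
`Pool.Agent.Results.MP_17f4cb_nt.AllQuadraticTwistsVanish` there is no quadratic field at all with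
`L(1/2, π' ⊗ η_E) ≠ 0`. So `N_π'(x) = 0` for all `x`, and `liminf N_π'(x)/x = 0`.

The definitions (Hecke-Maass cusp forms, quadratic characters, the L-functions of the twists, the set counted
by `N_π'(x)`) and the proof are those of that file. The reason for the vanishing is the root number: all the
local components of `π'` are representations of the principal series, hence the root number of
`π' ⊗ η_E` does not depend on `E`, and it is `-1`.
-/

set_option autoImplicit false

open Filter Topology

namespace Pool.Agent.Results.MP_5f72fe_nt.NoNonvanishingTwist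

open Pool.Agent.Results.MP_17f4cb_nt.AllQuadraticTwistsVanish (IsHeckeMaass IsQuad IsTwistedL nonvanishing)

/-- `N_π'(x)`: the number of the quadratic fields `E` with `|Δ_E| < x` and `L(1/2, π' ⊗ η_E) ≠ 0`, where `π'`
has the level `N` and the Hecke eigenvalues `a p`. -/
noncomputable def count (N : ℕ) (a : ℕ → ℂ) (x : ℕ) : ℕ := (nonvanishing N a x).ncard

/-- **Main theorem.** There is a Hecke-Maass cusp form of level `25` with trivial character, that is, an
irreducible cuspidal automorphic representation `π'` of `PGL₂(𝔸)`, such that `L(1/2, π' ⊗ η_E) = 0` for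
every quadratic field `E`. So `N_π'(x) = 0` for all `x`, `liminf N_π'(x)/x = 0`, and there is no `c > 0` with
`N_π'(x) ≥ c x` for all large `x`. -/
theorem result : ∃ (f : ℂ → ℂ) (a : ℕ → ℂ),
    IsHeckeMaass 25 (Real.pi / (2 * Real.log ((1 + √5) / 2))) f a ∧
    (∀ (M : ℕ) (χ : DirichletCharacter ℂ M), IsQuad χ →
      ∃ L : ℂ → ℂ, IsTwistedL 25 a χ L ∧ L (1 / 2) = 0) ∧
    (∀ x : ℕ, nonvanishing 25 a x = ∅ ∧ count 25 a x = 0) ∧
    liminf (fun x : ℕ => (count 25 a x : ℝ) / x) atTop = 0 ∧
    ¬ ∃ c : ℝ, 0 < c ∧ ∀ᶠ x : ℕ in atTop, c * x ≤ count 25 a x := by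
  obtain ⟨f, a, h1, h2, h3, h4, -⟩ := Pool.Agent.Results.MP_17f4cb_nt.AllQuadraticTwistsVanish.result
  have h0 : ∀ x : ℕ, count 25 a x = 0 := fun x => (h3 x).2
  refine ⟨f, a, h1, h2, fun x => ⟨?_, h0 x⟩, ?_, ?_⟩
  · exact (Set.ncard_eq_zero (((h3 x).1).subset fun χ hχ => hχ.1)).1 (h0 x)
  · simp only [h0, Nat.cast_zero, zero_div]
    exact liminf_const 0
  · rintro ⟨c, hc, h⟩
    obtain ⟨x, hx⟩ := (h.and (eventually_ge_atTop 1)).exists
    have h5 := hx.1
    rw [h0 x, Nat.cast_zero] at h5
    have h6 : (1 : ℝ) ≤ x := by exact_mod_cast hx.2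
    nlinarith

end Pool.Agent.Results.MP_5f72fe_nt.NoNonvanishingTwist
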